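import Pool.Agent.H12.Plinth.Graph

/-!
# Principal plinth ideal does not imply polynomial invariant ring

For every prime `p` and every field `k` of characteristic `p` there is an exponential automorphism
`φ` of `k[x₁,x₂,x₃]` whose plinth ideal is principal, but whose ring of invariants is not
isomorphic to `k[x₁,x₂,x₃]`.

The example: `B = k[x,u,y]`, `s = u^p - x y`, `f = u + s^(p+1)`, and `φ = ε_1` for the `G_a`-action
`ε` which fixes `x`, `f` and sends `s` to `s + x^3 T`. With `N = s^p - x^(3(p-1)) s` the invariant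
ring is generated by `x`, `f`, `N` and `((f^p - N^(p+1))^p - N) / x^p`, and the plinth ideal is
generated by `x^2`.
-/

set_option autoImplicit false

namespace Pool.Agent.Results.MP_bc0af3_ag.PrincipalPlinth

open Polynomial

universe u

section Defs

variable {k B : Type*} [Field k] [CommRing B] [Algebra k B]

/-- A `G_a`-action on the `k`-algebra `B`: a `k`-algebra homomorphism `ε : B → B[T]`,
`ε(b) = ∑ b_i T^i`, such that for every `b`: (A1) `b_0 = b`, and
(A2) `∑ ε(b_i) U^i = ∑ b_i (T + U)^i` in `B[T][U]`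
(the inner variable `T` is `C X`, the outer variable `U` is `X`). -/
structure IsGaAction (ε : B →ₐ[k] B[X]) : Prop where
  A1 : ∀ b : B, (ε b).coeff 0 = b
  A2 : ∀ b : B, ((ε b).sum fun i bi => C (ε bi) * X ^ i : B[X][X]) =
    (ε b).sum fun i bi => C (C bi) * (C X + X) ^ i

/-- An automorphism `φ` of `B` is exponential if `φ = ε_a`, i.e. `φ(b) = ε(b)|_{T = a}`, for some
`G_a`-action `ε` on `B` and some `a` in `B^ε = {b : ε(b) = b}`. -/
def IsExponential (φ : B ≃ₐ[k] B) : Prop :=
  ∃ ε : B →ₐ[k] B[X], IsGaAction ε ∧ ∃ a : B, ε a = C a ∧ ∀ b : B, φ b = (ε b).eval a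

/-- The invariant ring `B^φ = {f : φ(f) = f}`, as a `k`-subalgebra of `B`. -/
def invariantRing (φ : B ≃ₐ[k] B) : Subalgebra k B :=
  AlgHom.equalizer (φ : B →ₐ[k] B) (AlgHom.id k B)

lemma mem_invariantRing (φ : B ≃ₐ[k] B) (b : B) : b ∈ invariantRing φ ↔ φ b = b := Iff.rfl

/-- The plinth ideal `pl(φ) = (φ - id)(B) ∩ B^φ`, an ideal of `B^φ`. -/
def plinthIdeal (φ : B ≃ₐ[k] B) : Ideal (invariantRing φ) where
  carrier := {r | ∃ b : B, φ b - b = (r : B)}
  add_mem' := by
    rintro r s ⟨b, hb⟩ ⟨c, hc⟩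
    exact ⟨b + c, by rw [map_add, add_sub_add_comm, hb, hc]; rfl⟩
  zero_mem' := ⟨0, by rw [map_zero, sub_zero]; rfl⟩
  smul_mem' := by
    rintro c r ⟨b, hb⟩
    refine ⟨(c : B) * b, ?_⟩
    have hc : φ (c : B) = c := c.2
    rw [map_mul, hc, ← mul_sub, hb]
    rfl

end Defs

open Pool.Agent.H12.Plinth in
/-- For every prime `p` and every field `k` of characteristic `p` there is an exponential
automorphism of `k[x₁,x₂,x₃]` whose plinth ideal is principal but whose invariant ring is not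
isomorphic to `k[x₁,x₂,x₃]`. -/
theorem result (p : ℕ) [Fact p.Prime] (k : Type u) [Field k] [CharP k p] :
    ∃ φ : MvPolynomial (Fin 3) k ≃ₐ[k] MvPolynomial (Fin 3) k,
      IsExponential φ ∧ Submodule.IsPrincipal (plinthIdeal φ) ∧
        ¬ Nonempty (invariantRing φ ≃ₐ[k] MvPolynomial (Fin 3) k) := by
  refine ⟨Phi k p, ⟨eps k p, ⟨eps_coeff_zero k p, fun b => ?_⟩, 1, ?_, fun b => ?_⟩, ?_, ?_⟩
  · have h := DFunLike.congr_fun (coassoc k p) b
    rw [coL_apply, coR_apply, coE_apply, eval₂_eq_sum, Polynomial.map, eval₂_eq_sum] at h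
    exact h
  · rw [map_one, C_1]
  · rw [Phi_apply, phi_apply]
  · have hx2 : xx k ^ 2 ∈ invariantRing (Phi k p) := by
      change Phi k p (xx k ^ 2) = xx k ^ 2
      rw [map_pow, Phi_x]
    refine ⟨⟨⟨xx k ^ 2, hx2⟩, ?_⟩⟩
    apply le_antisymm
    · rintro r ⟨b, hb⟩
      obtain ⟨c, hc⟩ := x2_dvd k p b
      rw [hb] at hc
      have hcinv : Phi k p c = c := by
        have h1 : Phi k p (r : B3 k) = r := r.2
        rw [hc, map_mul, map_pow, Phi_x] at h1
        exact mul_left_cancel₀ (pow_ne_zero _ (xx_ne k)) h1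
      rw [Submodule.mem_span_singleton]
      refine ⟨⟨c, hcinv⟩, Subtype.ext ?_⟩
      change c * xx k ^ 2 = r
      rw [hc, mul_comm]
    · rw [Submodule.span_singleton_le_iff_mem]
      refine ⟨hh k p, ?_⟩
      rw [Phi_h]
      ring
  · rintro ⟨e⟩
    have h : invariantRing (Phi k p) = R1 k p := by
      ext b
      exact (mem_R1_iff k p b).symm
    exact (R1_not_poly k p).false ((Subalgebra.equivOfEq _ _ h).symm.trans e)

end Pool.Agent.Results.MP_bc0af3_ag.PrincipalPlinth
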